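import Pool.Agent.H76.IdealCount

set_option autoImplicit false

/-!
Upper bound for `∑ (number of ideals of norm p) p^(-s)` over primes, from the class number formula.
-/

namespace Pool.Agent.H97.Gol

open NumberField Filter Topology Asymptotics Pool.Agent.H76

variable (K : Type) [Field K] [NumberField K]

/-- the Dedekind zeta function at a real point -/
noncomputable def Z (s : ℝ) : ℝ := ∑' n : ℕ, (idealCount K n : ℝ) * (n : ℝ) ^ (-s)

lemma lsum {σ : ℝ} (hσ : 1 < σ) :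
    LSeriesSummable (fun n : ℕ => ((idealCount K n : ℝ) : ℂ)) (σ : ℂ) := by
  let a : ℕ → ℝ := fun n => Nat.card {I : Ideal (𝓞 K) // Ideal.absNorm I = n}
  have htend : Tendsto (fun n : ℕ => (∑ k ∈ Finset.Icc 1 n, a k) / n) atTop
      (𝓝 (NumberField.dedekindZeta_residue K)) := by
    refine ((NumberField.Ideal.tendsto_norm_le_div_atTop₀ K).comp
      tendsto_natCast_atTop_atTop).congr fun n ↦ ?_
    simp only [Function.comp_apply, Nat.cast_le, a, ← Nat.cast_sum]
    congr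
    rw [← add_left_inj 1, ← Ideal.card_norm_le_eq_card_norm_le_add_one,
      show Finset.Icc 1 n = Finset.Ioc 0 n from Finset.Icc_succ_left_eq_Ioc _ _,
      show 1 = Nat.card {I : Ideal (𝓞 K) // Ideal.absNorm I = 0} by
        simp [Ideal.absNorm_eq_zero_iff],
      Finset.sum_Ioc_add_eq_sum_Icc (n.zero_le),
      ← Finset.card_preimage_eq_sum_card_image_eq
        (fun k _ ↦ Ideal.finite_setOfPred_absNorm_eq k)]
    simp [Set.coe_eq_subtype]
  have hO : (fun n : ℕ => ∑ k ∈ Finset.Icc 1 n, a k) =O[atTop] fun n => (n : ℝ) ^ (1 : ℝ) := by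
    have h1 := htend.isBigO_one ℝ
    have h2 : (fun n : ℕ => (∑ k ∈ Finset.Icc 1 n, a k) / n * (n : ℝ))
        =O[atTop] fun n : ℕ => (1 : ℝ) * (n : ℝ) := h1.mul (isBigO_refl _ _)
    refine (h2.congr' ?_ ?_)
    · filter_upwards [eventually_ne_atTop 0] with n hn
      have : (n : ℝ) ≠ 0 := by exact_mod_cast hn
      field_simp
    · filter_upwards with n
      rw [one_mul, Real.rpow_one]
  exact LSeriesSummable_of_sum_norm_bigO_and_nonneg hO (fun n => Nat.cast_nonneg _) zero_le_one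
      (by simpa using hσ)

lemma term_eq {s : ℝ} (hs : 1 < s) (n : ℕ) :
    LSeries.term (fun n : ℕ => ((idealCount K n : ℝ) : ℂ)) (s : ℂ) n
      = (((idealCount K n : ℝ) * (n : ℝ) ^ (-s) : ℝ) : ℂ) := by
  rcases eq_or_ne n 0 with rfl | hn
  · rw [LSeries.term_zero, Nat.cast_zero, Real.zero_rpow (by linarith), mul_zero]; simp
  · rw [LSeries.term_of_ne_zero hn]
    have h0 : (0 : ℝ) ≤ n := Nat.cast_nonneg n
    rw [Complex.ofReal_mul, Complex.ofReal_cpow h0, Complex.ofReal_neg, Complex.cpow_neg,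
      Complex.ofReal_natCast]
    rfl

lemma summ {s : ℝ} (hs : 1 < s) :
    Summable fun n : ℕ => (idealCount K n : ℝ) * (n : ℝ) ^ (-s) := by
  have h := lsum K hs
  unfold LSeriesSummable at h
  have h2 : LSeries.term (fun n : ℕ => ((idealCount K n : ℝ) : ℂ)) (s : ℂ) =
      fun n : ℕ => (((idealCount K n : ℝ) * (n : ℝ) ^ (-s) : ℝ) : ℂ) := funext (term_eq K hs)
  rw [h2] at h
  exact Complex.summable_ofReal.mp h

lemma dedekindZeta_eq_Z {s : ℝ} (hs : 1 < s) : dedekindZeta K (s : ℂ) = (Z K s : ℂ) := by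
  unfold dedekindZeta LSeries Z
  rw [Complex.ofReal_tsum]
  refine tsum_congr fun n => ?_
  rw [← term_eq K hs n]
  simp [idealCount]

/-- `ζ_K(s) ≤ C / (s - 1)` near `1` -/
lemma Z_le : ∃ C : ℝ, 0 < C ∧ ∀ᶠ s in 𝓝[>] (1 : ℝ), Z K s ≤ C / (s - 1) := by
  have h := tendsto_sub_one_mul_dedekindZeta_nhdsGT K
  have h2 : Tendsto (fun s : ℝ => (s - 1) * Z K s) (𝓝[>] 1) (𝓝 (dedekindZeta_residue K)) := by
    have h3 : Tendsto (fun s : ℝ => (((s - 1) * Z K s : ℝ) : ℂ)) (𝓝[>] 1)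
        (𝓝 ((dedekindZeta_residue K : ℝ) : ℂ)) := by
      refine h.congr' ?_
      filter_upwards [self_mem_nhdsWithin] with s hs
      rw [dedekindZeta_eq_Z K hs]
      push_cast; ring
    exact (Complex.continuous_re.tendsto _).comp h3
  refine ⟨dedekindZeta_residue K + 1, by have := dedekindZeta_residue_pos K; linarith, ?_⟩
  have h4 := h2.eventually (eventually_lt_nhds (lt_add_one (dedekindZeta_residue K)))
  filter_upwards [h4, self_mem_nhdsWithin] with s hs hs1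
  have : 0 < s - 1 := by have := Set.mem_Ioi.mp hs1; linarith
  rw [le_div_iff₀ this]
  linarith

lemma prod_term (S : Finset ℕ) (hS : ∀ p ∈ S, p.Prime) (s : ℝ) :
    ∏ p ∈ S, ((idealCount K p : ℝ) * (p : ℝ) ^ (-s))
      = (idealCount K (∏ p ∈ S, p) : ℝ) * ((∏ p ∈ S, p : ℕ) : ℝ) ^ (-s) := by
  induction S using Finset.induction_on with
  | empty => simp [idealCount_one]
  | insert q S hq ih =>
    rw [Finset.prod_insert hq, Finset.prod_insert hq, ih (fun p hp => hS p (by simp [hp]))]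
    have hqp : q.Prime := hS q (by simp)
    have hpos : 0 < ∏ p ∈ S, p := Finset.prod_pos fun p hp => (hS p (by simp [hp])).pos
    have hcop : Nat.Coprime q (∏ p ∈ S, p) := by
      refine Nat.Coprime.prod_right fun p hp => ?_
      rw [Nat.coprime_primes hqp (hS p (by simp [hp]))]
      rintro rfl
      exact hq hp
    rw [idealCount_mul hqp.pos hpos hcop]
    push_cast
    rw [Real.mul_rpow (Nat.cast_nonneg _) (Finset.prod_nonneg fun i _ => Nat.cast_nonneg _)]
    ring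

/-- lower bound for the zeta function by a finite product over primes -/
lemma prod_le (F : Finset ℕ) (hF : ∀ p ∈ F, p.Prime) {s : ℝ} (hs : 1 < s) :
    ∏ p ∈ F, (1 + (idealCount K p : ℝ) * (p : ℝ) ^ (-s)) ≤ Z K s := by
  classical
  rw [Finset.prod_one_add]
  have h1 : ∀ S ∈ F.powerset, ∏ p ∈ S, ((idealCount K p : ℝ) * (p : ℝ) ^ (-s))
      = (fun n : ℕ => (idealCount K n : ℝ) * (n : ℝ) ^ (-s)) (∏ p ∈ S, p) := by
    intro S hS
    exact prod_term K S (fun p hp => hF p (Finset.mem_powerset.mp hS hp)) s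
  rw [Finset.sum_congr rfl h1]
  have hinj : Set.InjOn (fun S : Finset ℕ => ∏ p ∈ S, p) (F.powerset : Set (Finset ℕ)) := by
    intro S hS T hT hST
    have e1 := Nat.primeFactors_prod (s := S)
      (fun p hp => hF p (Finset.mem_powerset.mp (Finset.mem_coe.mp hS) hp))
    have e2 := Nat.primeFactors_prod (s := T)
      (fun p hp => hF p (Finset.mem_powerset.mp (Finset.mem_coe.mp hT) hp))
    simp only at hST
    rw [← e1, ← e2, hST]
  rw [← Finset.sum_image (f := fun n : ℕ => (idealCount K n : ℝ) * (n : ℝ) ^ (-s)) hinj]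
  exact (summ K hs).sum_le_tsum _ fun n _ => by positivity

/-- the main estimate: primes with at least `N` ideals of norm `p` -/
theorem prime_sum_le (N : ℕ) : ∃ C : ℝ, ∀ᶠ s in 𝓝[>] (1 : ℝ), ∀ F : Finset ℕ,
    (∀ p ∈ F, p.Prime ∧ N ≤ idealCount K p) →
    N * ∑ p ∈ F, (p : ℝ) ^ (-s) ≤ Real.log (1 / (s - 1)) + C := by
  obtain ⟨C, hC, hZ⟩ := Z_le K
  refine ⟨Real.log C + N ^ 2 * ∑' n : ℕ, (n : ℝ) ^ (-2 : ℝ), ?_⟩
  filter_upwards [hZ, self_mem_nhdsWithin] with s hs hs1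
  have hs1 : 1 < s := hs1
  intro F hF
  have h1 := prod_le K F (fun p hp => (hF p hp).1) hs1
  have hsum2 : Summable fun n : ℕ => (n : ℝ) ^ (-2 : ℝ) := by
    rw [Real.summable_nat_rpow]; norm_num
  have h2 : Real.exp (∑ p ∈ F, (N * (p : ℝ) ^ (-s) - N ^ 2 * (p : ℝ) ^ (-2 : ℝ))) ≤
      ∏ p ∈ F, (1 + (idealCount K p : ℝ) * (p : ℝ) ^ (-s)) := by
    rw [Real.exp_sum]
    refine Finset.prod_le_prod (fun p _ => (Real.exp_pos _).le) fun p hp => ?_
    have hp1 : (1 : ℝ) < p := by exact_mod_cast (hF p hp).1.one_lt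
    set x : ℝ := (p : ℝ) ^ (-s) with hx
    have hx0 : 0 ≤ x := by positivity
    have hx2 : x ^ 2 ≤ (p : ℝ) ^ (-2 : ℝ) := by
      rw [hx, ← Real.rpow_natCast, ← Real.rpow_mul (by linarith)]
      apply Real.rpow_le_rpow_of_exponent_le hp1.le
      push_cast; linarith
    have hN : (N : ℝ) ≤ idealCount K p := by exact_mod_cast (hF p hp).2
    have h3 : (1 : ℝ) + N * x ≤ 1 + (idealCount K p : ℝ) * x := by
      have := mul_le_mul_of_nonneg_right hN hx0
      linarith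
    refine le_trans ?_ h3
    have hy0 : 0 ≤ (N : ℝ) * x := by positivity
    have h4 : (N : ℝ) * x - N ^ 2 * (p : ℝ) ^ (-2 : ℝ) ≤ N * x - (N * x) ^ 2 := by
      have : (N * x) ^ 2 = (N : ℝ) ^ 2 * x ^ 2 := by ring
      rw [this]
      have := mul_le_mul_of_nonneg_left hx2 (by positivity : (0 : ℝ) ≤ (N : ℝ) ^ 2)
      linarith
    refine (Real.exp_le_exp.mpr h4).trans ?_
    set y := (N : ℝ) * x
    -- exp (y - y^2) ≤ 1 + y
    have h5 : Real.exp (y - y ^ 2) * Real.exp (y ^ 2 - y) = 1 := by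
      rw [← Real.exp_add]; simp
    have h6 : y ^ 2 - y + 1 ≤ Real.exp (y ^ 2 - y) := Real.add_one_le_exp _
    have h7 : 0 < y ^ 2 - y + 1 := by nlinarith [sq_nonneg (y - 1 / 2)]
    have h8 : Real.exp (y - y ^ 2) * (y ^ 2 - y + 1) ≤ 1 :=
      (mul_le_mul_of_nonneg_left h6 (Real.exp_pos _).le).trans h5.le
    have h9 : 1 ≤ (1 + y) * (y ^ 2 - y + 1) := by nlinarith [pow_nonneg hy0 3]
    exact le_of_mul_le_mul_right (h8.trans h9) h7
  have hpos : 0 < s - 1 := by linarith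
  have h3 := (h2.trans h1).trans hs
  have h4 : ∑ p ∈ F, (N * (p : ℝ) ^ (-s) - N ^ 2 * (p : ℝ) ^ (-2 : ℝ)) ≤ Real.log (C / (s - 1)) := by
    rw [Real.le_log_iff_exp_le (by positivity)]
    exact h3
  rw [Finset.sum_sub_distrib, ← Finset.mul_sum, ← Finset.mul_sum] at h4
  have h5 : ∑ p ∈ F, (p : ℝ) ^ (-2 : ℝ) ≤ ∑' n : ℕ, (n : ℝ) ^ (-2 : ℝ) :=
    hsum2.sum_le_tsum _ fun n _ => by positivity
  have h6 : (N : ℝ) ^ 2 * ∑ p ∈ F, (p : ℝ) ^ (-2 : ℝ) ≤ N ^ 2 * ∑' n : ℕ, (n : ℝ) ^ (-2 : ℝ) :=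
    mul_le_mul_of_nonneg_left h5 (by positivity)
  have h7 : Real.log (C / (s - 1)) = Real.log C + Real.log (1 / (s - 1)) := by
    rw [← Real.log_mul hC.ne' (by positivity)]
    congr 1; ring
  linarith

end Pool.Agent.H97.Gol
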