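import Mathlib

set_option autoImplicit false

/-!
The splitting field of `(X^(2^m) - 1)(X^4 - r)` over `ℚ` has degree more than `2^(m-1)` when
`r` is not a square.
-/

namespace Pool.Agent.H97.Gol

open Polynomial IntermediateField

/-- the polynomial `(X^(2^m) - 1)(X^4 - r)` -/
noncomputable def pl (m r : ℕ) : ℚ[X] := (X ^ (2 ^ m) - 1) * (X ^ 4 - C (r : ℚ))

/-- its splitting field in `ℂ` -/
noncomputable abbrev Lf (m r : ℕ) : IntermediateField ℚ ℂ :=
  IntermediateField.adjoin ℚ ((pl m r).rootSet ℂ)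

lemma pl_ne (m r : ℕ) : pl m r ≠ 0 := by
  unfold pl
  refine mul_ne_zero ?_ ?_
  · exact (monic_X_pow_sub_C (1 : ℚ) (n := 2 ^ m) (by positivity)).ne_zero
  · exact (monic_X_pow_sub_C (r : ℚ) (n := 4) (by norm_num)).ne_zero

lemma mem_roots {m r : ℕ} {x : ℂ} :
    x ∈ (pl m r).rootSet ℂ ↔ x ^ (2 ^ m) = 1 ∨ x ^ 4 = (r : ℂ) := by
  rw [mem_rootSet_of_ne (pl_ne m r)]
  simp only [pl, map_mul, map_sub, map_pow, aeval_X, map_one, mul_eq_zero, sub_eq_zero]
  simp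

instance splitInst (m r : ℕ) : (pl m r).IsSplittingField ℚ (Lf m r) :=
  IntermediateField.adjoin_rootSet_isSplittingField (IsAlgClosed.splits _)

instance finInst (m r : ℕ) : FiniteDimensional ℚ (Lf m r) :=
  IsSplittingField.finiteDimensional _ (pl m r)

instance normInst (m r : ℕ) : Normal ℚ (Lf m r) := Normal.of_isSplittingField (pl m r)

instance galInst (m r : ℕ) : IsGalois ℚ (Lf m r) := ⟨⟩

instance nfInst (m r : ℕ) : NumberField (Lf m r) := ⟨⟩

lemma gen {m r : ℕ} (σ τ : Lf m r ≃ₐ[ℚ] Lf m r)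
    (h : ∀ x : Lf m r, x ^ (2 ^ m) = 1 ∨ x ^ 4 = (r : Lf m r) → σ x = τ x) : σ = τ := by
  have h1 : (σ : Lf m r →ₐ[ℚ] Lf m r) = τ := by
    apply IntermediateField.adjoin_algHom_ext
    intro x hx
    apply h
    rcases mem_roots.mp hx with h | h
    · left
      apply Subtype.ext
      push_cast; exact h
    · right
      apply Subtype.ext
      push_cast; exact h
  exact AlgEquiv.coe_toAlgHom_injective h1

theorem degree {m r : ℕ} (hm : 1 ≤ m) (hr : ¬ IsSquare r) :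
    2 ^ (m - 1) + 1 ≤ Module.finrank ℚ (Lf m r) := by
  by_contra hcon
  push Not at hcon
  -- a primitive root of unity
  obtain ⟨ζ, hζ⟩ : ∃ ζ : ℂ, IsPrimitiveRoot ζ (2 ^ m) :=
    ⟨_, Complex.isPrimitiveRoot_exp (2 ^ m) (by positivity)⟩
  have hζL : ζ ∈ Lf m r := IntermediateField.subset_adjoin _ _ (mem_roots.mpr (Or.inl hζ.pow_eq_one))
  have hle : ℚ⟮ζ⟯ ≤ Lf m r := by
    rw [IntermediateField.adjoin_simple_le_iff]; exact hζL
  have hrank : Module.finrank ℚ ℚ⟮ζ⟯ = 2 ^ (m - 1) := by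
    rw [IntermediateField.adjoin.finrank (hζ.isIntegral (by positivity)).tower_top,
      ← cyclotomic_eq_minpoly_rat hζ (by positivity), natDegree_cyclotomic,
      Nat.totient_prime_pow Nat.prime_two (by omega)]
    simp
  have heq : ℚ⟮ζ⟯ = Lf m r := IntermediateField.eq_of_le_of_finrank_le hle (by omega)
  -- commutativity
  have hext : ∀ σ τ : Lf m r ≃ₐ[ℚ] Lf m r, σ ⟨ζ, hζL⟩ = τ ⟨ζ, hζL⟩ → σ = τ := by
    intro σ τ h
    have h1 : (σ : Lf m r →ₐ[ℚ] Lf m r) = τ := by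
      apply IntermediateField.algHom_ext_of_eq_adjoin ℚ heq.symm
      intro x hx
      have : x = ζ := by simpa using hx
      subst this
      exact h
    exact AlgEquiv.coe_toAlgHom_injective h1
  have hpow : ∀ σ : Lf m r ≃ₐ[ℚ] Lf m r, ∃ k : ℕ, σ ⟨ζ, hζL⟩ = ⟨ζ, hζL⟩ ^ k := by
    intro σ
    have h1 : ((σ ⟨ζ, hζL⟩ : Lf m r) : ℂ) ^ (2 ^ m) = 1 := by
      have : (σ ⟨ζ, hζL⟩) ^ (2 ^ m) = 1 := by
        rw [← map_pow]
        have : (⟨ζ, hζL⟩ : Lf m r) ^ (2 ^ m) = 1 := by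
          apply Subtype.ext
          push_cast; exact hζ.pow_eq_one
        rw [this, map_one]
      have h2 := congrArg (fun z : Lf m r => (z : ℂ)) this
      simpa using h2
    obtain ⟨k, _, hk⟩ := hζ.eq_pow_of_pow_eq_one h1
    exact ⟨k, by apply Subtype.ext; push_cast; exact hk.symm⟩
  have hcomm : ∀ σ τ : Lf m r ≃ₐ[ℚ] Lf m r, ∀ x, σ (τ x) = τ (σ x) := by
    intro σ τ x
    have h1 : τ.trans σ = σ.trans τ := by
      apply hext
      obtain ⟨a, ha⟩ := hpow σ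
      obtain ⟨b, hb⟩ := hpow τ
      rw [AlgEquiv.trans_apply, AlgEquiv.trans_apply, ha, hb, map_pow, map_pow, ha, hb,
        ← pow_mul, ← pow_mul, mul_comm]
    exact congrArg (fun f : Lf m r ≃ₐ[ℚ] Lf m r => f x) h1
  -- the real fourth root
  set ρ : ℝ := Real.sqrt (Real.sqrt r) with hρ
  have hρ4 : ρ ^ 4 = r := by
    have h1 : ρ ^ 2 = Real.sqrt r := Real.sq_sqrt (Real.sqrt_nonneg _)
    have h2 : (Real.sqrt r) ^ 2 = r := Real.sq_sqrt (Nat.cast_nonneg _)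
    calc ρ ^ 4 = (ρ ^ 2) ^ 2 := by ring
      _ = (r : ℝ) := by rw [h1, h2]
  have hρ0 : 0 ≤ ρ := Real.sqrt_nonneg _
  have hρL : (ρ : ℂ) ∈ Lf m r := by
    apply IntermediateField.subset_adjoin
    rw [mem_roots]
    right
    exact_mod_cast hρ4
  set R : Lf m r := ⟨(ρ : ℂ), hρL⟩ with hR
  -- complex conjugation
  let c : Lf m r ≃ₐ[ℚ] Lf m r :=
    AlgEquiv.restrictNormal (Complex.conjAe.restrictScalars ℚ) (Lf m r)
  have hc : ∀ x : Lf m r, ((c x : Lf m r) : ℂ) = (starRingEnd ℂ) (x : ℂ) := by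
    intro x
    exact AlgEquiv.restrictNormal_commutes (Complex.conjAe.restrictScalars ℚ) (Lf m r) x
  have hcR : c R = R := by
    apply Subtype.ext
    rw [hc, hR]
    simp
  have hfix : ∀ σ : Lf m r ≃ₐ[ℚ] Lf m r, σ (R ^ 2) = R ^ 2 := by
    intro σ
    have h1 : c (σ R) = σ R := by rw [hcomm, hcR]
    have h2 : (starRingEnd ℂ) ((σ R : Lf m r) : ℂ) = ((σ R : Lf m r) : ℂ) := by
      rw [← hc, h1]
    obtain ⟨y, hy⟩ := Complex.conj_eq_iff_real.mp h2
    have h3 : ((σ R : Lf m r) : ℂ) ^ 4 = (r : ℂ) := by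
      have : (σ R) ^ 4 = (r : Lf m r) := by
        rw [← map_pow]
        have : R ^ 4 = (r : Lf m r) := by
          apply Subtype.ext
          have h5 : ((ρ : ℂ)) ^ 4 = (r : ℂ) := by exact_mod_cast hρ4
          simpa [hR] using h5
        rw [this, map_natCast]
      have h2 := congrArg (fun z : Lf m r => (z : ℂ)) this
      simpa using h2
    rw [hy] at h3
    have h4 : y ^ 4 = ρ ^ 4 := by
      rw [hρ4]; exact_mod_cast h3
    have h5 : y ^ 2 = ρ ^ 2 := by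
      have : (y ^ 2) ^ 2 = (ρ ^ 2) ^ 2 := by rw [← pow_mul, ← pow_mul]; exact h4
      exact (sq_eq_sq₀ (sq_nonneg _) (sq_nonneg _)).mp this
    rw [map_pow]
    apply Subtype.ext
    have h6 : (y : ℂ) ^ 2 = (ρ : ℂ) ^ 2 := by exact_mod_cast h5
    push_cast
    rw [hy]
    exact h6
  have hbot : R ^ 2 ∈ (⊥ : IntermediateField ℚ (Lf m r)) :=
    (IsGalois.mem_bot_iff_fixed _).mpr hfix
  rw [IntermediateField.mem_bot] at hbot
  obtain ⟨q, hq⟩ := hbot
  have hq2 : (q : ℝ) = Real.sqrt r := by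
    have h1 := congrArg (fun z : Lf m r => (z : ℂ)) hq
    have h2 : ((q : ℚ) : ℂ) = (ρ : ℂ) ^ 2 := by simpa [hR] using h1
    have h3 : (q : ℝ) = ρ ^ 2 := by exact_mod_cast h2
    rw [h3]
    exact Real.sq_sqrt (Real.sqrt_nonneg _)
  have hirr := irrational_sqrt_natCast_iff.mpr hr
  exact hirr ⟨q, hq2⟩

end Pool.Agent.H97.Gol
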