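import Pool.Agent.H76.IdealCount

set_option autoImplicit false

/-!
Primes that split completely in a splitting field of `(X^(2^m) - 1)(X^4 - r)`.
-/

namespace Pool.Agent.H97.Gol

open NumberField Ideal Pool.Agent.H76

variable {K : Type} [Field K] [NumberField K]

omit [NumberField K] in
/-- an element of the residue field fixed by Frobenius comes from an integer -/
lemma exists_int {P : Ideal (𝓞 K)} (hP : P.IsMaximal) {l : ℕ} (hl : l.Prime)
    (hlP : (l : 𝓞 K) ∈ P) {x : 𝓞 K} (hx : x ^ l - x ∈ P) : ∃ a : ℤ, x - a ∈ P := by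
  let _ : Field (𝓞 K ⧸ P) := Ideal.Quotient.field P
  have _ : Fact l.Prime := ⟨hl⟩
  have _ : CharP (𝓞 K ⧸ P) l := by
    rw [CharP.charP_iff_prime_eq_zero hl]
    have := Ideal.Quotient.eq_zero_iff_mem.mpr hlP
    simpa using this
  have h1 : (Ideal.Quotient.mk P x) ^ l = Ideal.Quotient.mk P x := by
    rw [← map_pow, Ideal.Quotient.eq]; exact hx
  rw [← Subfield.mem_bot_iff_pow_eq_self, mem_bot_iff_intCast l] at h1
  obtain ⟨a, ha⟩ := h1
  refine ⟨a, ?_⟩
  rw [← Ideal.Quotient.eq, ← ha]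
  simp

lemma eq_of_pow_two_pow {R : Type*} [CommRing R] [IsDomain R] {P : Ideal R} (hP : P.IsPrime)
    (h2 : (2 : R) ∉ P) (m : ℕ) {x y : R} (hxy : x ^ (2 ^ m) = y ^ (2 ^ m)) (hy : y ∉ P)
    (hsub : x - y ∈ P) : x = y := by
  induction m with
  | zero => simpa using hxy
  | succ m ih =>
    have h1 : (x ^ (2 ^ m)) ^ 2 = (y ^ (2 ^ m)) ^ 2 := by
      rw [← pow_mul, ← pow_mul, ← pow_succ]; exact hxy
    rcases sq_eq_sq_iff_eq_or_eq_neg.mp h1 with h | h
    · exact ih h
    · exfalso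
      have h3 : x ^ (2 ^ m) - y ^ (2 ^ m) ∈ P :=
        P.mem_of_dvd (sub_dvd_pow_sub_pow x y _) hsub
      rw [h] at h3
      have h4 : (2 : R) * y ^ (2 ^ m) ∈ P := by
        have := P.neg_mem h3
        convert this using 1
        ring
      rcases hP.mem_or_mem h4 with h | h
      · exact h2 h
      · exact hy (hP.mem_of_pow_mem _ h)

/-- the conjugate of an ideal -/
noncomputable def conj (P : Ideal (𝓞 K)) (σ : K ≃ₐ[ℚ] K) : Ideal (𝓞 K) :=
  P.comap (RingOfIntegers.mapRingEquiv σ.toRingEquiv)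

lemma mem_conj {P : Ideal (𝓞 K)} {σ : K ≃ₐ[ℚ] K} {x : 𝓞 K} :
    x ∈ conj P σ ↔ RingOfIntegers.mapRingEquiv σ.toRingEquiv x ∈ P := Iff.rfl

lemma conj_max {P : Ideal (𝓞 K)} (hP : P.IsMaximal) (σ : K ≃ₐ[ℚ] K) : (conj P σ).IsMaximal := by
  unfold conj
  exact Ideal.comap_isMaximal_of_equiv _

lemma conj_norm (P : Ideal (𝓞 K)) (σ : K ≃ₐ[ℚ] K) : absNorm (conj P σ) = absNorm P := by
  rw [Ideal.absNorm_apply, Ideal.absNorm_apply, Submodule.cardQuot_apply, Submodule.cardQuot_apply]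
  have h : P = (conj P σ).map
      ((RingOfIntegers.mapRingEquiv σ.toRingEquiv : 𝓞 K ≃+* 𝓞 K) : 𝓞 K →+* 𝓞 K) := by
    unfold conj
    exact (Ideal.map_comap_of_surjective _
      (RingOfIntegers.mapRingEquiv σ.toRingEquiv).surjective P).symm
  exact Nat.card_congr (Ideal.quotientEquiv (conj P σ) P _ h).toEquiv

lemma conj_inj {P : Ideal (𝓞 K)} (hP : P.IsMaximal) {l : ℕ} (hl : l.Prime) (hl2 : l ≠ 2)
    (hlP : (l : 𝓞 K) ∈ P) {m : ℕ} (hm : 2 ≤ m) (hlm : 2 ^ m ∣ l - 1) {r : ℕ} (hr : ¬ l ∣ r)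
    {c : ℤ} (hc : (l : ℤ) ∣ c ^ 4 - r)
    (hgen : ∀ σ τ : K ≃ₐ[ℚ] K, (∀ x : K, x ^ (2 ^ m) = 1 ∨ x ^ 4 = (r : K) → σ x = τ x) → σ = τ) :
    Function.Injective (conj P) := by
  have hcast : ∀ z : ℤ, (l : ℤ) ∣ z ↔ (z : 𝓞 K) ∈ P := by
    intro z
    constructor
    · rintro ⟨w, rfl⟩
      push_cast
      exact P.mul_mem_right _ hlP
    · intro hz
      by_contra hcon
      have hcop : IsCoprime (l : ℤ) z := by
        rw [Int.isCoprime_iff_gcd_eq_one]
        have := (Nat.prime_iff_prime_int.mp hl).coprime_iff_not_dvd.mpr hcon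
        exact Int.isCoprime_iff_gcd_eq_one.mp this
      obtain ⟨a, b, hab⟩ := hcop
      apply hP.ne_top
      rw [Ideal.eq_top_iff_one]
      have h1 : ((a * l + b * z : ℤ) : 𝓞 K) ∈ P := by
        push_cast
        exact P.add_mem (P.mul_mem_left _ hlP) (P.mul_mem_left _ hz)
      rw [hab] at h1
      simpa using h1
  have h2P : (2 : 𝓞 K) ∉ P := by
    intro h
    have h1 := (hcast 2).mpr (by exact_mod_cast h)
    have h2 : l ∣ 2 := by exact_mod_cast h1
    exact hl2 ((Nat.prime_dvd_prime_iff_eq hl Nat.prime_two).mp h2)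
  have hrP : (r : 𝓞 K) ∉ P := by
    intro h
    have h1 := (hcast r).mpr (by exact_mod_cast h)
    exact hr (by exact_mod_cast h1)
  have h4l : 4 ∣ l - 1 := (pow_dvd_pow 2 hm).trans hlm
  -- elements of interest are fixed by Frobenius
  have hfrob : ∀ (Q : Ideal (𝓞 K)), Q.IsMaximal → (l : 𝓞 K) ∈ Q → ∀ x : 𝓞 K,
      x ^ (2 ^ m) = 1 ∨ x ^ 4 = (r : 𝓞 K) → ∃ a : ℤ, x - a ∈ Q := by
    intro Q hQ hlQ x hx
    refine exists_int hQ hl hlQ ?_
    have hlpos : l = (l - 1) + 1 := by have := hl.pos; omega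
    rcases hx with hx | hx
    · obtain ⟨k, hk⟩ := hlm
      have : x ^ l = x := by
        rw [hlpos, pow_succ, hk, pow_mul, hx, one_pow, one_mul]
      rw [this, sub_self]
      exact Q.zero_mem
    · obtain ⟨k, hk⟩ := h4l
      -- x^(l-1) = r^k ≡ c^(l-1) ≡ 1
      have e1 : x ^ (l - 1) - (c : 𝓞 K) ^ (l - 1) ∈ Q := by
        rw [hk, pow_mul, pow_mul, hx]
        have : (r : 𝓞 K) - (c : 𝓞 K) ^ 4 ∈ Q := by
          obtain ⟨w, hw⟩ := hc
          have : (r : 𝓞 K) - (c : 𝓞 K) ^ 4 = (l : 𝓞 K) * (-w : 𝓞 K) := by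
            have h := congrArg (Int.cast : ℤ → 𝓞 K) hw
            push_cast at h
            linear_combination -h
          rw [this]
          exact Q.mul_mem_right _ hlQ
        exact Q.mem_of_dvd (sub_dvd_pow_sub_pow _ _ _) this
      have hc0 : ¬ (l : ℤ) ∣ c := by
        intro h
        have h5 : (l : ℤ) ∣ c ^ 4 := dvd_pow h (by norm_num)
        have h6 : (l : ℤ) ∣ r := by
          have := (dvd_sub_right h5).mp hc
          exact this
        exact hr (by exact_mod_cast h6)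
      have e2 : (c : 𝓞 K) ^ (l - 1) - 1 ∈ Q := by
        have h7 : c ^ (l - 1) ≡ 1 [ZMOD l] :=
          Int.ModEq.pow_card_sub_one_eq_one hl
            ((Nat.prime_iff_prime_int.mp hl).coprime_iff_not_dvd.mpr hc0).symm
        obtain ⟨w, hw⟩ := h7.symm.dvd
        have : (c : 𝓞 K) ^ (l - 1) - 1 = (l : 𝓞 K) * (w : 𝓞 K) := by
          have h := congrArg (Int.cast : ℤ → 𝓞 K) hw
          push_cast at h
          exact h
        rw [this]
        exact Q.mul_mem_right _ hlQ
      have e3 : x ^ (l - 1) - 1 ∈ Q := by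
        have := Q.add_mem e1 e2
        convert this using 1
        ring
      have e4 : x ^ l - x = x * (x ^ (l - 1) - 1) := by
        conv_lhs => rw [hlpos]
        rw [pow_succ]; ring
      rw [e4]
      exact Q.mul_mem_left _ e3
  intro σ τ hστ
  apply hgen
  intro x hx
  -- lift to integers
  have hint : IsIntegral ℤ x := by
    rcases hx with hx | hx
    · exact IsIntegral.of_pow (n := 2 ^ m) (by positivity) (by rw [hx]; exact isIntegral_one)
    · exact IsIntegral.of_pow (n := 4) (by norm_num) (by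
        rw [hx]; exact_mod_cast (isIntegral_algebraMap (R := ℤ) (A := K) (x := (r : ℤ))))
  obtain ⟨y, rfl⟩ : ∃ y : 𝓞 K, (y : K) = x := ⟨⟨x, hint⟩, rfl⟩
  have hy : y ^ (2 ^ m) = 1 ∨ y ^ 4 = (r : 𝓞 K) := by
    rcases hx with hx | hx
    · left
      apply RingOfIntegers.ext
      push_cast; exact hx
    · right
      apply RingOfIntegers.ext
      push_cast; exact hx
  set S := RingOfIntegers.mapRingEquiv σ.toRingEquiv with hS
  set T := RingOfIntegers.mapRingEquiv τ.toRingEquiv with hT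
  have hlσ : (l : 𝓞 K) ∈ conj P σ := by
    rw [mem_conj, map_natCast]; exact hlP
  obtain ⟨a, ha⟩ := hfrob (conj P σ) (conj_max hP σ) hlσ y hy
  have ha2 : y - a ∈ conj P τ := by rw [← hστ]; exact ha
  rw [mem_conj, map_sub, map_intCast] at ha ha2
  have hsub : S y - T y ∈ P := by
    have := P.sub_mem ha ha2
    convert this using 1
    ring
  have key : S y = T y := by
    refine eq_of_pow_two_pow hP.isPrime h2P m ?_ ?_ hsub
    · rw [← map_pow, ← map_pow]
      rcases hy with hy | hy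
      · rw [hy, map_one, map_one]
      · obtain ⟨k, hk⟩ : (2 ^ 2) ∣ 2 ^ m := pow_dvd_pow 2 hm
        rw [hk, pow_mul, show (2 : ℕ) ^ 2 = 4 by norm_num, hy, ← Nat.cast_pow,
          map_natCast, map_natCast]
    · intro hTP
      rcases hy with hy | hy
      · apply hP.ne_top
        rw [Ideal.eq_top_iff_one]
        have := P.pow_mem_of_mem hTP (2 ^ m) (by positivity)
        rw [← map_pow, hy, map_one] at this
        exact this
      · have := P.pow_mem_of_mem hTP 4 (by norm_num)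
        rw [← map_pow, hy, map_natCast] at this
        exact hrP this
  have := congrArg (fun z : 𝓞 K => (z : K)) key
  simpa [hS, hT] using this

theorem finrank_le_idealCount [IsGalois ℚ K] {l : ℕ} (hl : l.Prime) (hl2 : l ≠ 2)
    {m : ℕ} (hm : 2 ≤ m) (hlm : 2 ^ m ∣ l - 1) {r : ℕ} (hr : ¬ l ∣ r)
    {c : ℤ} (hc : (l : ℤ) ∣ c ^ 4 - r)
    (hgen : ∀ σ τ : K ≃ₐ[ℚ] K, (∀ x : K, x ^ (2 ^ m) = 1 ∨ x ^ 4 = (r : K) → σ x = τ x) → σ = τ) :
    Module.finrank ℚ K ≤ idealCount K l := by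
  classical
  have hne : span {(l : 𝓞 K)} ≠ ⊤ := by
    intro h
    have h1 := H76.absNorm_span_natCast (K := K) l
    rw [h, Ideal.absNorm_top] at h1
    have h2 : 0 < Module.finrank ℚ K := Module.finrank_pos
    have h3 := Nat.one_lt_pow h2.ne' hl.one_lt
    omega
  obtain ⟨P, hP, hlP'⟩ := Ideal.exists_le_maximal _ hne
  have hlP : (l : 𝓞 K) ∈ P := hlP' (mem_span_singleton_self _)
  have hinj := conj_inj hP hl hl2 hlP hm hlm hr hc hgen
  have hcard : Fintype.card (K ≃ₐ[ℚ] K) = Module.finrank ℚ K := by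
    rw [← Nat.card_eq_fintype_card]
    exact IsGalois.card_aut_eq_finrank ℚ K
  -- the product of the conjugates divides (l)
  have hdvd : ∏ σ : K ≃ₐ[ℚ] K, conj P σ ∣ span {(l : 𝓞 K)} := by
    apply Finset.prod_dvd_of_coprime
    · intro σ _ τ _ hστ
      have h1 : conj P σ ≠ conj P τ := fun h => hστ (hinj h)
      have h2 := (conj_max hP σ).coprime_of_ne (conj_max hP τ) h1
      exact Ideal.isCoprime_iff_sup_eq.mpr h2
    · intro σ _
      rw [Ideal.dvd_span_singleton, mem_conj, map_natCast]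
      exact hlP
  have hnorm : absNorm P = l := by
    have h1 := Ideal.absNorm_dvd_absNorm_of_le (Ideal.le_of_dvd hdvd)
    rw [H76.absNorm_span_natCast, map_prod] at h1
    simp only [conj_norm] at h1
    rw [Finset.prod_const, Finset.card_univ, hcard] at h1
    have h2 : absNorm P ∣ l :=
      (Nat.pow_dvd_pow_iff (Module.finrank_pos (R := ℚ) (M := K)).ne').mp h1
    rcases (Nat.dvd_prime hl).mp h2 with h3 | h3
    · exact absurd (Ideal.absNorm_eq_one_iff.mp h3) hP.ne_top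
    · exact h3
  unfold idealCount
  rw [← hcard, ← Nat.card_eq_fintype_card]
  have _ : Finite {I : Ideal (𝓞 K) // absNorm I = l} :=
    (Ideal.finite_setOfPred_absNorm_eq l).to_subtype
  refine Nat.card_le_card_of_injective
    (fun σ : K ≃ₐ[ℚ] K => (⟨conj P σ, by rw [conj_norm, hnorm]⟩ : {I : Ideal (𝓞 K) // absNorm I = l})) ?_
  intro σ τ h
  exact hinj (congrArg Subtype.val h)

end Pool.Agent.H97.Gol
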