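import Pool.Agent.H41.SF.Mertens
import Pool.Agent.H97.Gol.Zeta
import Pool.Agent.H97.Gol.Split
import Pool.Agent.H97.Gol.Degree

set_option autoImplicit false

/-!
For a positive integer `u` the primes `l` for which `-1` is a power of `4 u^2` modulo `l`
have divergent reciprocal sum.
-/

namespace Pool.Agent.H97.Gol

open Finset Filter Topology Pool.Agent.H76

/-- Mertens' second theorem, lower bound, from the first theorem, for a general weight -/
lemma abel_lower (g : ℕ → ℝ) (hg : ∀ n, 0 ≤ g n) (κ C : ℝ) (hκ : 0 ≤ κ)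
    (hC : 0 ≤ C) (h1 : g 1 = 0)
    (hA : ∀ N : ℕ, 1 ≤ N → κ * Real.log N - C ≤ ∑ n ∈ Ioc 0 N, g n) (N : ℕ) (hN : 2 ≤ N) :
    κ * Real.log (Real.log N) - κ * Real.log (Real.log 2) - (C + κ) / Real.log 2 ≤
      ∑ n ∈ Ioc 0 N, g n / Real.log n := by
  have key : ∀ N : ℕ, 2 ≤ N →
      κ * (Real.log (Real.log N) - Real.log (Real.log 2)) - (C + κ) * (1 / Real.log 2 - 1 / Real.log N)
        + (∑ n ∈ Ioc 0 N, g n) / Real.log N ≤ ∑ n ∈ Ioc 0 N, g n / Real.log n := by
    intro N hN
    induction N, hN using Nat.le_induction with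
    | base =>
      have : Ioc 0 2 = ({1, 2} : Finset ℕ) := by decide
      rw [this]
      simp [h1]
    | succ N hN ih =>
      have hN' : (2 : ℝ) ≤ N := by exact_mod_cast hN
      have hl : 0 < Real.log N := Real.log_pos (by linarith)
      have hl1 : Real.log N < Real.log ((N : ℝ) + 1) := Real.log_lt_log (by linarith) (by linarith)
      have hstep : Ioc 0 (N + 1) = insert (N + 1) (Ioc 0 N) := by ext; simp; omega
      rw [hstep, Finset.sum_insert (by simp), Finset.sum_insert (by simp)]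
      push_cast
      set L := Real.log (N : ℝ)
      set L' := Real.log ((N : ℝ) + 1)
      set A := ∑ n ∈ Ioc 0 N, g n
      have hA' := hA N (by omega)
      have hL' : 0 < L' := hl.trans hl1
      have hd : 0 < 1 / L - 1 / L' := by
        have := one_div_lt_one_div_of_lt hl hl1
        linarith
      have hdl : L' - L ≤ 1 := by
        have h3 : L' - L = Real.log (((N : ℝ) + 1) / N) := by
          rw [Real.log_div (by linarith) (by linarith)]
        rw [h3]
        have h4 : ((N : ℝ) + 1) / N = 1 / N + 1 := by field_simp; ring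
        have h5 := Real.log_le_sub_one_of_pos (x := ((N : ℝ) + 1) / N) (by positivity)
        have h6 : (1 : ℝ) / N ≤ 1 := by
          rw [div_le_one (by linarith)]; linarith
        rw [h4] at h5 ⊢
        linarith
      -- loglog step
      have hll : Real.log L' - Real.log L ≤ (L' - L) / L := by
        have h3 : Real.log L' - Real.log L = Real.log (L' / L) := by
          rw [Real.log_div hL'.ne' hl.ne']
        rw [h3]
        have h5 := Real.log_le_sub_one_of_pos (x := L' / L) (by positivity)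
        have : L' / L - 1 = (L' - L) / L := by field_simp
        linarith
      have h7 : (L' - L) / L - (1 / L - 1 / L') ≤ L * (1 / L - 1 / L') := by
        have e1 : L * (1 / L - 1 / L') = (L' - L) / L' := by field_simp
        have e2 : (L' - L) / L - (L' - L) / L' = (L' - L) * (1 / L - 1 / L') := by field_simp
        have e3 : (L' - L) * (1 / L - 1 / L') ≤ 1 * (1 / L - 1 / L') :=
          mul_le_mul_of_nonneg_right hdl hd.le
        linarith
      have h8 : κ * (Real.log L' - Real.log L) ≤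
          κ * (L * (1 / L - 1 / L')) + κ * (1 / L - 1 / L') := by
        rw [← mul_add]
        exact mul_le_mul_of_nonneg_left (by linarith) hκ
      have h9 : (κ * L - C) * (1 / L - 1 / L') ≤ A * (1 / L - 1 / L') :=
        mul_le_mul_of_nonneg_right hA' hd.le
      have e4 : (g (N + 1) + A) / L' = g (N + 1) / L' + A / L - A * (1 / L - 1 / L') := by
        field_simp; ring
      rw [e4]
      nlinarith [ih, h8, h9]
  have h2 := key N hN
  have hN' : (2 : ℝ) ≤ N := by exact_mod_cast hN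
  have hl : 0 < Real.log N := Real.log_pos (by linarith)
  have h3 : 0 ≤ (∑ n ∈ Ioc 0 N, g n) / Real.log N :=
    div_nonneg (Finset.sum_nonneg fun n _ => hg n) hl.le
  have h4 : 0 ≤ (C + κ) * (1 / Real.log N) := by positivity
  have h5 : (C + κ) * (1 / Real.log 2 - 1 / Real.log N) =
    (C + κ) / Real.log 2 - (C + κ) * (1 / Real.log N) := by ring
  linarith

/-- reciprocals of primes `1 mod q` -/
lemma primes_lower (q : ℕ) [NeZero q] : ∃ C : ℝ, ∀ N : ℕ, 2 ≤ N →
    Real.log (Real.log N) / q.totient - C ≤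
      ∑ p ∈ (Ioc 0 N).filter (fun p : ℕ => p.Prime ∧ (p : ZMod q) = 1), (1 : ℝ) / p := by
  obtain ⟨C, hC, h⟩ := Pool.Agent.H41.SF.mertens_AP (q := q) (a := 1) isUnit_one
  set g : ℕ → ℝ := fun n => if n.Prime ∧ (n : ZMod q) = 1 then Real.log n / n else 0 with hg
  have hg0 : ∀ n, 0 ≤ g n := by
    intro n
    simp only [hg]
    split_ifs
    · exact div_nonneg (Real.log_natCast_nonneg n) (Nat.cast_nonneg n)
    · exact le_rfl
  refine ⟨1 / q.totient * Real.log (Real.log 2) + (C + 1 / q.totient) / Real.log 2, fun N hN => ?_⟩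
  have h2 := abel_lower g hg0 (1 / q.totient) C (by positivity) hC (by simp [hg]) (by
    intro M hM
    have h3 := (abs_le.mp (h M hM)).1
    rw [Finset.sum_filter] at h3
    have : (1 : ℝ) / q.totient * Real.log M = Real.log M / q.totient := by ring
    rw [this]
    simp only [hg]
    linarith) N hN
  have h3 : ∑ n ∈ Ioc 0 N, g n / Real.log n =
      ∑ p ∈ (Ioc 0 N).filter (fun p : ℕ => p.Prime ∧ (p : ZMod q) = 1), (1 : ℝ) / p := by
    rw [Finset.sum_filter]
    refine Finset.sum_congr rfl fun n _ => ?_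
    simp only [hg]
    split_ifs with hn
    · have h4 : (1 : ℝ) < n := by exact_mod_cast hn.1.one_lt
      have h5 : Real.log n ≠ 0 := (Real.log_pos h4).ne'
      field_simp
    · simp
  rw [h3] at h2
  have e : Real.log (Real.log N) / q.totient -
      (1 / q.totient * Real.log (Real.log 2) + (C + 1 / q.totient) / Real.log 2) =
      1 / q.totient * Real.log (Real.log N) - 1 / q.totient * Real.log (Real.log 2)
        - (C + 1 / q.totient) / Real.log 2 := by ring
  exact e.le.trans h2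

/-- the sum over `F` of `1/p` against the sum of `p^(-s)` -/
lemma shift_le {N : ℕ} (hN : 3 ≤ N) {F : Finset ℕ} {C : ℝ}
    (hF : ∀ p ∈ F, p.Prime ∧ p ≤ N)
    (hC : ∑ p ∈ (Ioc 0 N).filter Nat.Prime, Real.log p / p ≤ Real.log N + C) (hC0 : 0 ≤ C) :
    ∑ p ∈ F, (1 : ℝ) / p ≤ ∑ p ∈ F, (p : ℝ) ^ (-(1 + 1 / Real.log N)) + (1 + C) := by
  have hN' : (3 : ℝ) ≤ N := by exact_mod_cast hN
  have hl : 1 ≤ Real.log N := by
    rw [Real.le_log_iff_exp_le (by linarith)]
    have := Real.exp_one_lt_d9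
    linarith
  have h1 : ∀ p ∈ F, (1 : ℝ) / p - (Real.log p / p) / Real.log N ≤
      (p : ℝ) ^ (-(1 + 1 / Real.log N)) := by
    intro p hp
    have hp1 : (1 : ℝ) < p := by exact_mod_cast (hF p hp).1.one_lt
    have e1 : (p : ℝ) ^ (-(1 + 1 / Real.log N)) = (1 / p) * Real.exp (-(Real.log p / Real.log N)) := by
      rw [neg_add, Real.rpow_add (by linarith), Real.rpow_neg_one,
        Real.rpow_def_of_pos (by linarith)]
      congr 1
      · simp
      · congr 1; ring
    rw [e1]
    have e2 := Real.add_one_le_exp (-(Real.log p / Real.log N))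
    have e3 : (1 : ℝ) / p - (Real.log p / p) / Real.log N =
        (1 / p) * (-(Real.log p / Real.log N) + 1) := by ring
    rw [e3]
    exact mul_le_mul_of_nonneg_left e2 (by positivity)
  have h2 := Finset.sum_le_sum h1
  rw [Finset.sum_sub_distrib, ← Finset.sum_div] at h2
  have h3 : ∑ p ∈ F, Real.log p / p ≤ Real.log N + C := by
    refine le_trans (Finset.sum_le_sum_of_subset_of_nonneg ?_ ?_) hC
    · intro p hp
      rw [Finset.mem_filter, Finset.mem_Ioc]
      exact ⟨⟨(hF p hp).1.pos, (hF p hp).2⟩, (hF p hp).1⟩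
    · intro p _ _
      exact div_nonneg (Real.log_natCast_nonneg p) (Nat.cast_nonneg p)
  have h4 : (∑ p ∈ F, Real.log p / p) / Real.log N ≤ 1 + C := by
    rw [div_le_iff₀ (by linarith)]
    have : C ≤ C * Real.log N := by nlinarith
    linarith
  linarith

/-- in a finite field of prime order `≡ 1 mod 4`, the elements with `x^((l-1)/4) = 1` are fourth
powers -/
lemma fourth_power {l : ℕ} [Fact l.Prime] (h4 : 4 ∣ l - 1) {x : ZMod l} (hx : x ≠ 0)
    (h : x ^ ((l - 1) / 4) = 1) : ∃ c : ZMod l, c ^ 4 = x := by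
  obtain ⟨g, hg⟩ := IsCyclic.exists_generator (α := (ZMod l)ˣ)
  set y : (ZMod l)ˣ := Units.mk0 x hx with hy
  obtain ⟨t, ht⟩ := (mem_powers_iff_mem_zpowers.mpr (hg y))
  have hord : orderOf g = l - 1 := by
    rw [orderOf_eq_card_of_forall_mem_zpowers hg, Nat.card_eq_fintype_card, ZMod.card_units]
  have hyp : y ^ ((l - 1) / 4) = 1 := by
    apply Units.ext
    push_cast
    exact h
  have ht' : g ^ t = y := ht
  rw [← ht', ← pow_mul, ← orderOf_dvd_iff_pow_eq_one, hord] at hyp
  obtain ⟨k, hk⟩ := h4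
  have hlt : 1 < l := (Fact.out : l.Prime).one_lt
  have hk0 : 0 < k := by omega
  have hk4 : (l - 1) / 4 = k := by omega
  rw [hk4, hk] at hyp
  have h5 : 4 ∣ t := Nat.dvd_of_mul_dvd_mul_right hk0 hyp
  obtain ⟨s, hs⟩ := h5
  refine ⟨((g ^ s : (ZMod l)ˣ) : ZMod l), ?_⟩
  have h6 : (g ^ s) ^ 4 = y := by rw [← pow_mul, mul_comm, ← hs]; exact ht'
  have h7 := congrArg (fun z : (ZMod l)ˣ => (z : ZMod l)) h6
  simpa [hy] using h7

/-- if `r` is not a fourth power mod `l ≡ 1 mod 2^(j+3)` then `-1` is a power of `r^(2^(j+1))` -/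
lemma neg_one_pow {l : ℕ} [Fact l.Prime] {j : ℕ} (hj : 2 ^ (j + 3) ∣ l - 1) {x : ZMod l}
    (hx : x ≠ 0) (h : ¬ ∃ c : ZMod l, c ^ 4 = x) : ∃ k : ℕ, (x ^ (2 ^ (j + 1))) ^ k = -1 := by
  have h4 : 4 ∣ l - 1 := (Dvd.intro_left (2 ^ (j + 1)) (by ring)).trans hj
  have hne : x ^ ((l - 1) / 4) ≠ 1 := fun h1 => h (fourth_power h4 hx h1)
  obtain ⟨w, hw⟩ := hj
  have e1 : (l - 1) / 4 = 2 ^ (j + 1) * w := by
    rw [hw]
    have : 2 ^ (j + 3) * w = 4 * (2 ^ (j + 1) * w) := by ring
    rw [this]; simp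
  have h1 : (x ^ ((l - 1) / 4)) ^ 2 * (x ^ ((l - 1) / 4)) ^ 2 = 1 := by
    rw [← pow_mul, ← pow_add]
    have : (l - 1) / 4 * 2 + (l - 1) / 4 * 2 = l - 1 := by omega
    rw [this]
    exact ZMod.pow_card_sub_one_eq_one hx
  rcases mul_self_eq_one_iff.mp h1 with h2 | h2
  · rw [sq] at h2
    rcases mul_self_eq_one_iff.mp h2 with h3 | h3
    · exact absurd h3 hne
    · refine ⟨w, ?_⟩
      rw [← pow_mul, ← e1]; exact h3
  · refine ⟨w * 2, ?_⟩
    rw [← pow_mul, ← mul_assoc, ← e1, pow_mul]; exact h2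

/-- every integer `≥ 2` is `r^(2^j)` with `r` not a square -/
lemma exists_root (n : ℕ) (hn : 2 ≤ n) : ∃ r j : ℕ, ¬ IsSquare r ∧ n = r ^ (2 ^ j) := by
  induction n using Nat.strong_induction_on with
  | _ n ih =>
    by_cases h : IsSquare n
    · obtain ⟨k, hk⟩ := h
      have hk2 : 2 ≤ k := by
        by_contra hcon
        have : k = 0 ∨ k = 1 := by omega
        rcases this with rfl | rfl <;> omega
      have hkn : k < n := by nlinarith
      obtain ⟨r, j, hr, hj⟩ := ih k hkn hk2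
      refine ⟨r, j + 1, hr, ?_⟩
      rw [hk, hj, pow_succ, pow_mul]
      ring
    · exact ⟨n, 0, h, by simp⟩

theorem evenOrder (u : ℕ) (hu : 0 < u) (C : ℝ) : ∃ Q : Finset ℕ,
    (∀ l ∈ Q, l.Prime ∧ ¬ l ∣ 2 * u ∧ ∃ m : ℕ, ((4 * u^2 : ℕ) : ZMod l)^m = -1) ∧
    C < ∑ l ∈ Q, (1:ℝ)/l := by
  classical
  obtain ⟨r, j, hr, hrj⟩ := exists_root (2 * u) (by omega)
  have hr0 : r ≠ 0 := by rintro rfl; exact hr ⟨0, rfl⟩
  set m := j + 3 with hm
  set q := 2 ^ m with hq
  have _ : NeZero q := ⟨by positivity⟩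
  set n := Module.finrank ℚ (Lf m r) with hn
  have hdeg : 2 ^ (m - 1) + 1 ≤ n := degree (by omega) hr
  have htot : q.totient = 2 ^ (m - 1) := by
    rw [hq, Nat.totient_prime_pow Nat.prime_two (by omega)]; simp
  -- bad primes
  set bad : ℕ → Prop := fun l => ∃ c : ℤ, (l : ℤ) ∣ c ^ 4 - r with hbad
  obtain ⟨C1, hC1⟩ := prime_sum_le (Lf m r) n
  obtain ⟨C2, hC2⟩ := primes_lower q
  obtain ⟨C3, hC30, hC3⟩ := Pool.Agent.H41.SF.mertens_AP (q := 1) (a := 0) (by decide)
  -- the sequence of exponents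
  have hlogtop : Tendsto (fun N : ℕ => Real.log (N : ℝ)) atTop atTop :=
    Real.tendsto_log_atTop.comp tendsto_natCast_atTop_atTop
  have hs : Tendsto (fun N : ℕ => 1 + 1 / Real.log (N : ℝ)) atTop (𝓝[>] 1) := by
    rw [tendsto_nhdsWithin_iff]
    constructor
    · have : Tendsto (fun N : ℕ => 1 / Real.log (N : ℝ)) atTop (𝓝 0) := by
        exact hlogtop.inv_tendsto_atTop.congr fun N => by simp
      simpa using this.const_add 1
    · filter_upwards [hlogtop.eventually_gt_atTop 0] with N hN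
      simp only [Set.mem_Ioi]
      have : 0 < 1 / Real.log (N : ℝ) := by positivity
      linarith
  have hev := hs.eventually hC1
  have hll : Tendsto (fun N : ℕ => Real.log (Real.log (N : ℝ))) atTop atTop :=
    Real.tendsto_log_atTop.comp hlogtop
  set P : ℝ := (2 : ℝ) ^ (m - 1) with hP
  have hP0 : 0 < P := by positivity
  have hnP : P + 1 ≤ n := by rw [hP]; exact_mod_cast hdeg
  have hn0 : (0 : ℝ) < n := by linarith
  set δ : ℝ := 1 / P - 1 / n with hδ
  have hδ0 : 0 < δ := by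
    have := one_div_lt_one_div_of_lt hP0 (by linarith : P < (n : ℝ))
    linarith
  set D : ℝ := ∑ l ∈ r.primeFactors, (1 : ℝ) / l with hD
  obtain ⟨N, hNev, hNll, hN3⟩ := (hev.and ((hll.eventually_gt_atTop
    ((C + C2 + C1 / n + (1 + C3) + D) / δ)).and (eventually_ge_atTop 3))).exists
  have hN3' : (3 : ℝ) ≤ N := by exact_mod_cast hN3
  have hlogN : 0 < Real.log N := Real.log_pos (by linarith)
  set P1 := (Ioc 0 N).filter (fun p : ℕ => p.Prime ∧ (p : ZMod q) = 1) with hP1
  set P2 := P1.filter (fun l => ¬ l ∣ r ∧ bad l) with hP2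
  set Q := P1.filter (fun l => ¬ l ∣ r ∧ ¬ bad l) with hQ
  have hmod : ∀ l ∈ P1, l.Prime ∧ l ≤ N ∧ q ∣ l - 1 := by
    intro l hl
    rw [hP1, Finset.mem_filter, Finset.mem_Ioc] at hl
    refine ⟨hl.2.1, hl.1.2, ?_⟩
    have h1 : ((l - 1 : ℕ) : ZMod q) = 0 := by
      rw [Nat.cast_sub hl.1.1, hl.2.2]; simp
    exact (ZMod.natCast_eq_zero_iff _ _).mp h1
  have h2q : ∀ l ∈ P1, l ≠ 2 := by
    intro l hl h2
    have h3 := (hmod l hl).2.2
    rw [h2] at h3
    have : q ≤ 1 := Nat.le_of_dvd (by norm_num) h3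
    have h4 : 2 ^ 1 ≤ q := by rw [hq]; exact Nat.pow_le_pow_right (by norm_num) (by omega)
    omega
  -- upper bound for P2
  have hP2le : ∑ p ∈ P2, (1 : ℝ) / p ≤ (Real.log (Real.log N) + C1) / n + (1 + C3) := by
    have h1 := hNev P2 (by
      intro p hp
      rw [hP2, Finset.mem_filter] at hp
      obtain ⟨hp1, hp2, c, hc⟩ := hp
      exact ⟨(hmod p hp1).1, finrank_le_idealCount (hmod p hp1).1 (h2q p hp1) (by omega)
        (hmod p hp1).2.2 hp2 hc gen⟩)
    have h2 := shift_le (F := P2) (C := C3) hN3 (by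
      intro p hp
      have hp1 : p ∈ P1 := (Finset.mem_filter.mp hp).1
      exact ⟨(hmod p hp1).1, (hmod p hp1).2.1⟩) (by
      have h3 := (abs_le.mp (hC3 N (by omega))).2
      have h4 : (Ioc 0 N).filter (fun p : ℕ => p.Prime ∧ (p : ZMod 1) = 0) =
          (Ioc 0 N).filter Nat.Prime := by
        apply Finset.filter_congr
        intro p _
        simp [eq_iff_true_of_subsingleton]
      rw [h4] at h3
      simp only [Nat.totient_one, Nat.cast_one, div_one] at h3
      linarith) hC30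
    have h5 : (1 : ℝ) / (1 + 1 / Real.log N - 1) = Real.log N := by
      have : 1 + 1 / Real.log (N : ℝ) - 1 = 1 / Real.log N := by ring
      rw [this, one_div_one_div]
    rw [h5] at h1
    have h6 : ∑ p ∈ P2, (p : ℝ) ^ (-(1 + 1 / Real.log N)) ≤ (Real.log (Real.log N) + C1) / n := by
      rw [le_div_iff₀ hn0]
      linarith
    linarith
  have hsplit : ∑ p ∈ P1, (1 : ℝ) / p ≤ ∑ p ∈ Q, (1 : ℝ) / p + ∑ p ∈ P2, (1 : ℝ) / p + D := by
    have h1 : P1 ⊆ (Q ∪ P2) ∪ r.primeFactors := by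
      intro l hl
      by_cases h1 : l ∣ r
      · exact Finset.mem_union_right _ (Nat.mem_primeFactors.mpr ⟨(hmod l hl).1, h1, hr0⟩)
      · apply Finset.mem_union_left
        by_cases h2 : bad l
        · exact Finset.mem_union_right _ (Finset.mem_filter.mpr ⟨hl, h1, h2⟩)
        · exact Finset.mem_union_left _ (Finset.mem_filter.mpr ⟨hl, h1, h2⟩)
    have h0 : ∀ A B : Finset ℕ, ∑ p ∈ A ∪ B, (1 : ℝ) / p ≤ ∑ p ∈ A, (1 : ℝ) / p + ∑ p ∈ B, (1 : ℝ) / p := by
      intro A B
      rw [← Finset.sum_union_inter]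
      have : 0 ≤ ∑ p ∈ A ∩ B, (1 : ℝ) / p := Finset.sum_nonneg fun _ _ => by positivity
      linarith
    refine (Finset.sum_le_sum_of_subset_of_nonneg h1 fun _ _ _ => by positivity).trans ?_
    have := h0 (Q ∪ P2) r.primeFactors
    have := h0 Q P2
    linarith
  have hlow := hC2 N (by omega)
  rw [htot] at hlow
  push_cast at hlow
  refine ⟨Q, ?_, ?_⟩
  · intro l hl
    rw [hQ, Finset.mem_filter] at hl
    obtain ⟨hl1, hl2, hl3⟩ := hl
    obtain ⟨hlp, hlN, hlq⟩ := hmod l hl1
    have _ : Fact l.Prime := ⟨hlp⟩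
    refine ⟨hlp, ?_, ?_⟩
    · rw [hrj]
      intro h
      exact hl2 (hlp.dvd_of_dvd_pow h)
    · have hx : (r : ZMod l) ≠ 0 := by
        rw [Ne, ZMod.natCast_eq_zero_iff]; exact hl2
      have h4 : ¬ ∃ c : ZMod l, c ^ 4 = (r : ZMod l) := by
        rintro ⟨c, hc⟩
        apply hl3
        refine ⟨(c.val : ℤ), ?_⟩
        rw [← ZMod.intCast_zmod_eq_zero_iff_dvd]
        push_cast
        rw [ZMod.natCast_zmod_val, hc]; simp
      obtain ⟨k, hk⟩ := neg_one_pow (j := j) hlq hx h4
      refine ⟨k, ?_⟩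
      have : (4 * u ^ 2 : ℕ) = r ^ (2 ^ (j + 1)) := by
        calc 4 * u ^ 2 = (2 * u) ^ 2 := by ring
          _ = r ^ (2 ^ (j + 1)) := by rw [hrj, ← pow_mul, pow_succ]
      rw [this]
      push_cast
      exact hk
  · have h1 : (C + C2 + C1 / n + (1 + C3) + D) < δ * Real.log (Real.log N) := by
      rw [div_lt_iff₀ hδ0] at hNll
      linarith
    have h2 : δ * Real.log (Real.log N) =
        Real.log (Real.log N) / P - Real.log (Real.log N) / n := by
      rw [hδ]; ring
    have h3 : (Real.log (Real.log N) + C1) / n = Real.log (Real.log N) / n + C1 / n := by ring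
    rw [h3] at hP2le
    rw [h2] at h1
    linarith

end Pool.Agent.H97.Gol
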